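import Pool.Agent.W506.PM.Stm

/-!
# Point modules of a quadratic algebra correspond to the points (part PMOD)
-/

open scoped LinearAlgebra.Projectivization
open MulOpposite

universe u

namespace Pool.Agent.W428.PMOD

open Pool.Agent.W506.PM

variable {k : Type u} [Field k] {A : Type u} [Ring A] [Algebra k A] {𝒜 : ℕ → Submodule k A}
  {n m : ℕ} {x : Fin n → A} {r : Fin m → Fin n → Fin n → k}

theorem mem_iSup_pow (hgen : Algebra.adjoin k (Set.range x) = ⊤) (a : A) :
    a ∈ ⨆ i : ℕ, (Submodule.span k (Set.range x)) ^ i := by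
  have ha : a ∈ Algebra.adjoin k (Set.range x) := by rw [hgen]; trivial
  induction ha using Algebra.adjoin_induction with
  | mem y hy =>
    exact Submodule.mem_iSup_of_mem 1 (by rw [pow_one]; exact Submodule.subset_span hy)
  | algebraMap c =>
    exact Submodule.mem_iSup_of_mem 0 (by rw [pow_zero]; exact Submodule.algebraMap_mem c)
  | add y z _ _ h1 h2 => exact add_mem h1 h2
  | mul y z _ _ h1 h2 =>
    have hle : (⨆ i : ℕ, (Submodule.span k (Set.range x)) ^ i) *
        (⨆ i : ℕ, (Submodule.span k (Set.range x)) ^ i) ≤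
        ⨆ i : ℕ, (Submodule.span k (Set.range x)) ^ i := by
      rw [Submodule.iSup_mul]
      refine iSup_le fun i => ?_
      rw [Submodule.mul_iSup]
      refine iSup_le fun j => ?_
      rw [← pow_add]
      exact le_iSup (fun i => (Submodule.span k (Set.range x)) ^ i) (i + j)
    exact hle (Submodule.mul_mem_mul h1 h2)

theorem pow_le (hc : IsConnectedGraded 𝒜) (hx : ∀ j, x j ∈ 𝒜 1) (i : ℕ) :
    (Submodule.span k (Set.range x)) ^ i ≤ 𝒜 i := by
  have := hc.graded
  induction i with
  | zero =>
    rw [pow_zero, Submodule.one_le]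
    exact SetLike.GradedOne.one_mem
  | succ i ih =>
    rw [pow_succ, Submodule.mul_le]
    intro a ha b hb
    refine SetLike.GradedMul.mul_mem (ih ha) ?_
    have : Submodule.span k (Set.range x) ≤ 𝒜 1 := by
      rw [Submodule.span_le]
      rintro _ ⟨j, rfl⟩
      exact hx j
    exact this hb

/-- The component of degree `i` consists of the linear combinations of the words of length
`i` in the generators. -/
theorem le_pow (hc : IsConnectedGraded 𝒜) (hx : ∀ j, x j ∈ 𝒜 1)
    (hgen : Algebra.adjoin k (Set.range x) = ⊤) (i : ℕ) :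
    𝒜 i ≤ (Submodule.span k (Set.range x)) ^ i := by
  let _ : DirectSum.Decomposition 𝒜 := hc.internal.chooseDecomposition
  have key : ∀ a ∈ ⨆ i : ℕ, (Submodule.span k (Set.range x)) ^ i, ∀ i : ℕ,
      (DirectSum.decompose 𝒜 a i : A) ∈ (Submodule.span k (Set.range x)) ^ i := by
    intro a ha
    induction ha using Submodule.iSup_induction' with
    | mem j a ha =>
      intro i
      by_cases hij : j = i
      · subst hij
        rw [DirectSum.decompose_of_mem_same 𝒜 (pow_le hc hx j ha)]
        exact ha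
      · rw [DirectSum.decompose_of_mem_ne 𝒜 (pow_le hc hx j ha) hij]
        exact zero_mem _
    | zero => intro i; simp
    | add a b _ _ h1 h2 =>
      intro i
      rw [DirectSum.decompose_add]
      exact add_mem (h1 i) (h2 i)
  intro a ha
  have := key a (mem_iSup_pow hgen a) i
  rwa [DirectSum.decompose_of_mem_same 𝒜 ha] at this

/-- A frame of a point module: homogeneous generators and the structure constants. -/
structure Frame (P : PointModule 𝒜) (x : Fin n → A) where
  e : ℕ → P.carrier
  p : ℕ → Fin n → k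
  ne : ∀ i, e i ≠ 0
  mem : ∀ i, e i ∈ P.comp i
  act : ∀ i j, op (x j) • e i = p i j • e (i + 1)
  pne : ∀ i, p i ≠ 0

theorem comp_eq (P : PointModule 𝒜) (i : ℕ) {v : P.carrier} (hv : v ≠ 0) (hm : v ∈ P.comp i) :
    P.comp i = Submodule.span k {v} := by
  have h1 := P.finrank_comp i
  have : Module.Finite k (P.comp i) := Module.finite_of_finrank_pos (by omega)
  symm
  apply Submodule.eq_of_le_of_finrank_eq
  · rw [Submodule.span_singleton_le_iff_mem]; exact hm
  · rw [h1, finrank_span_singleton hv]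

theorem linInd (P : PointModule 𝒜) {e : ℕ → P.carrier} (ne : ∀ i, e i ≠ 0)
    (mem : ∀ i, e i ∈ P.comp i) : LinearIndependent k e :=
  iSupIndep.linearIndependent _ P.internal.submodule_iSupIndep mem ne

theorem span_top (P : PointModule 𝒜) {e : ℕ → P.carrier} (ne : ∀ i, e i ≠ 0)
    (mem : ∀ i, e i ∈ P.comp i) : ⊤ ≤ Submodule.span k (Set.range e) := by
  rw [← P.internal.submodule_iSup_eq_top]
  refine iSup_le fun i => ?_
  rw [comp_eq P i (ne i) (mem i)]
  exact Submodule.span_mono (by rintro _ rfl; exact ⟨i, rfl⟩)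

/-- The set of elements of `A` that preserve a `k`-submodule `S`. -/
theorem stable_all (hgen : Algebra.adjoin k (Set.range x) = ⊤) (P : PointModule 𝒜)
    (S : Submodule k P.carrier) (hS : ∀ j, ∀ v ∈ S, op (x j) • v ∈ S) (a : A) :
    ∀ v ∈ S, op a • v ∈ S := by
  have ha : a ∈ Algebra.adjoin k (Set.range x) := by rw [hgen]; trivial
  induction ha using Algebra.adjoin_induction with
  | mem y hy => obtain ⟨j, rfl⟩ := hy; exact hS j
  | algebraMap c =>
    intro v hv
    have : op (algebraMap k A c) • v = c • v := by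
      have h1 : op (algebraMap k A c) = c • (1 : Aᵐᵒᵖ) := by
        rw [Algebra.smul_def, mul_one]; rfl
      rw [h1, smul_assoc, one_smul]
    rw [this]
    exact S.smul_mem c hv
  | add y z _ _ h1 h2 =>
    intro v hv
    rw [op_add, add_smul]
    exact add_mem (h1 v hv) (h2 v hv)
  | mul y z _ _ h1 h2 =>
    intro v hv
    rw [op_mul, mul_smul]
    exact h2 _ (h1 v hv)

theorem exists_frame (hgen : Algebra.adjoin k (Set.range x) = ⊤) (hx : ∀ j, x j ∈ 𝒜 1)
    (P : PointModule 𝒜) : Nonempty (Frame P x) := by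
  have h1 : ∀ i, ∃ v : P.carrier, v ≠ 0 ∧ v ∈ P.comp i := by
    intro i
    have h := P.finrank_comp i
    have : P.comp i ≠ ⊥ := by
      intro hb
      rw [hb, finrank_bot] at h
      exact absurd h (by norm_num)
    obtain ⟨v, hv, hv0⟩ := Submodule.exists_mem_ne_zero_of_ne_bot this
    exact ⟨v, hv0, hv⟩
  choose e ne mem using h1
  have h2 : ∀ i j, ∃ c : k, op (x j) • e i = c • e (i + 1) := by
    intro i j
    have := P.smul_mem 1 i (x j) (e i) (hx j) (mem i)
    rw [comp_eq P (i + 1) (ne (i + 1)) (mem (i + 1)), Submodule.mem_span_singleton] at this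
    obtain ⟨c, hc⟩ := this
    exact ⟨c, hc.symm⟩
  choose p act using h2
  refine ⟨⟨e, p, ne, mem, act, ?_⟩⟩
  intro i hi
  set S : Submodule k P.carrier := Submodule.span k (e '' {l | l ≤ i}) with hSdef
  have hS : ∀ j, ∀ v ∈ S, op (x j) • v ∈ S := by
    intro j v hv
    have : SMulCommClass k Aᵐᵒᵖ P.carrier := IsScalarTower.to_smulCommClass
    induction hv using Submodule.span_induction with
    | mem v hv =>
      obtain ⟨l, hl, rfl⟩ := hv
      rw [act]
      rcases Nat.lt_or_ge l i with h | h
      · exact S.smul_mem _ (Submodule.subset_span ⟨l + 1, h, rfl⟩)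
      · have : l = i := le_antisymm hl h
        subst this
        rw [hi]; simp
    | zero => rw [smul_zero]; exact zero_mem _
    | add v w _ _ h1 h2 => rw [smul_add]; exact add_mem h1 h2
    | smul c v _ h1 =>
      rw [← smul_comm c (op (x j)) v]
      exact S.smul_mem _ h1
  have hall := stable_all hgen P S hS
  let T : Submodule Aᵐᵒᵖ P.carrier :=
    { carrier := S
      add_mem' := fun h1 h2 => S.add_mem h1 h2
      zero_mem' := S.zero_mem
      smul_mem' := fun a v hv => hall (unop a) v hv }
  have hT : T = ⊤ := by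
    rw [eq_top_iff, ← P.cyclic, Submodule.span_le]
    intro v hv
    have hv' : v ∈ P.comp 0 := hv
    rw [comp_eq P 0 (ne 0) (mem 0), Submodule.mem_span_singleton] at hv'
    obtain ⟨c, rfl⟩ := hv'
    exact S.smul_mem c (Submodule.subset_span ⟨0, Nat.zero_le i, rfl⟩)
  have hmem : e (i + 1) ∈ S := by
    have : e (i + 1) ∈ T := by rw [hT]; trivial
    exact this
  have hli := linInd P ne mem
  exact (hli.notMem_span_image (s := {l | l ≤ i}) (x := i + 1) (by simp)) hmem

theorem act_alg (P : PointModule 𝒜) (c : k) (v : P.carrier) : op (algebraMap k A c) • v = c • v := by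
  have h1 : op (algebraMap k A c) = c • (1 : Aᵐᵒᵖ) := by
    rw [Algebra.smul_def, mul_one]; rfl
  rw [h1, smul_assoc, one_smul]

/-- The structure constants satisfy the relations. -/
theorem frame_zero (hrel : ∀ i, ∑ j, ∑ l, r i j l • (x j * x l) = 0) {P : PointModule 𝒜}
    (F : Frame P x) (i : ℕ) : Zero r (F.p i) (F.p (i + 1)) := by
  intro s
  have : SMulCommClass k Aᵐᵒᵖ P.carrier := IsScalarTower.to_smulCommClass
  have h0 : op (∑ j, ∑ l, r s j l • (x j * x l)) • F.e i = 0 := by
    rw [hrel s, op_zero, zero_smul]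
  have h1 : op (∑ j, ∑ l, r s j l • (x j * x l)) • F.e i =
      (∑ j, ∑ l, r s j l * (F.p i j * F.p (i + 1) l)) • F.e (i + 2) := by
    rw [Finset.op_sum, Finset.sum_smul, Finset.sum_smul]
    refine Finset.sum_congr rfl fun j _ => ?_
    rw [Finset.op_sum, Finset.sum_smul, Finset.sum_smul]
    refine Finset.sum_congr rfl fun l _ => ?_
    rw [op_smul, op_mul, smul_assoc, mul_smul, F.act, smul_comm (op (x l)) (F.p i j), F.act,
      smul_smul, smul_smul, mul_assoc]
  rw [h1] at h0
  exact (smul_eq_zero.mp h0).resolve_right (F.ne (i + 2))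

theorem zero_smul' {p q : Fin n → k} (h : Zero r p q) (c d : k) : Zero r (c • p) (d • q) := by
  intro i
  have := h i
  have h2 : ∑ j, ∑ l, r i j l * ((c • p) j * (d • q) l) =
      (c * d) * ∑ j, ∑ l, r i j l * (p j * q l) := by
    rw [Finset.mul_sum]
    refine Finset.sum_congr rfl fun j _ => ?_
    rw [Finset.mul_sum]
    refine Finset.sum_congr rfl fun l _ => ?_
    simp only [Pi.smul_apply, smul_eq_mul]
    ring
  rw [h2, this, mul_zero]

/-- Isomorphic point modules have proportional first vectors. -/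
theorem iso_p0 {P Q : PointModule 𝒜} (h : PointModule.Iso P Q) (F : Frame P x) (G : Frame Q x) :
    ∃ c : k, c ≠ 0 ∧ F.p 0 = c • G.p 0 := by
  obtain ⟨f, hf⟩ := h
  have hlin : ∀ (c : k) (v : P.carrier), f (c • v) = c • f v := by
    intro c v
    rw [← act_alg P c v, f.map_smul, act_alg Q c (f v)]
  have h1 : ∀ i, ∃ c : k, c ≠ 0 ∧ f (F.e i) = c • G.e i := by
    intro i
    have h2 : f (F.e i) ∈ Q.comp i := (hf i _).mp (F.mem i)
    rw [comp_eq Q i (G.ne i) (G.mem i), Submodule.mem_span_singleton] at h2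
    obtain ⟨c, hc⟩ := h2
    refine ⟨c, ?_, hc.symm⟩
    rintro rfl
    rw [zero_smul] at hc
    exact F.ne i (f.map_eq_zero_iff.mp hc.symm)
  obtain ⟨a, ha, ha'⟩ := h1 0
  obtain ⟨b, hb, hb'⟩ := h1 1
  have : SMulCommClass k Aᵐᵒᵖ Q.carrier := IsScalarTower.to_smulCommClass
  refine ⟨a * b⁻¹, mul_ne_zero ha (inv_ne_zero hb), ?_⟩
  funext j
  have h3 : f (op (x j) • F.e 0) = op (x j) • f (F.e 0) := f.map_smul _ _
  rw [F.act, hlin, hb', ha', smul_comm (op (x j)) a, G.act, smul_smul, smul_smul] at h3
  have h4 : F.p 0 j * b = a * G.p 0 j := by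
    have h5 : (F.p 0 j * b - a * G.p 0 j) • G.e 1 = 0 := by
      rw [sub_smul]; exact sub_eq_zero.mpr h3
    exact sub_eq_zero.mp ((smul_eq_zero.mp h5).resolve_right (G.ne 1))
  rw [Pi.smul_apply, smul_eq_mul]
  field_simp
  linear_combination h4

/-- Point modules with proportional first vectors are isomorphic. -/
theorem iso_of_p0 (hp : IsPres x r)
    (huniq : ∀ p q q' : Fin n → k, p ≠ 0 → q ≠ 0 → q' ≠ 0 → Zero r p q → Zero r p q' →
      ∃ c : k, q' = c • q)
    {P Q : PointModule 𝒜} (F : Frame P x) (G : Frame Q x) (h : ∃ c : k, G.p 0 = c • F.p 0) :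
    PointModule.Iso P Q := by
  have hprop : ∀ i, ∃ c : k, G.p i = c • F.p i := by
    intro i
    induction i with
    | zero => exact h
    | succ i ih =>
      obtain ⟨c, hc⟩ := ih
      have hc0 : c ≠ 0 := by
        rintro rfl
        rw [zero_smul] at hc
        exact G.pne i hc
      have h1 := frame_zero hp.rel G i
      have h2 : Zero r (F.p i) (G.p (i + 1)) := by
        have h3 := zero_smul' h1 c⁻¹ 1
        rw [one_smul, hc, smul_smul, inv_mul_cancel₀ hc0, one_smul] at h3
        exact h3
      exact huniq _ _ _ (F.pne i) (F.pne (i + 1)) (G.pne (i + 1)) (frame_zero hp.rel F i) h2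
  choose c hc using hprop
  have hc0 : ∀ i, c i ≠ 0 := by
    intro i h0
    have := hc i
    rw [h0, zero_smul] at this
    exact G.pne i this
  let lam : ℕ → k := fun i => ∏ l ∈ Finset.range i, c l
  have hlam0 : ∀ i, lam i ≠ 0 := fun i => Finset.prod_ne_zero_iff.mpr fun l _ => hc0 l
  have hlam : ∀ i, lam (i + 1) = lam i * c i := fun i => Finset.prod_range_succ _ _
  let bP : Module.Basis ℕ k P.carrier :=
    Module.Basis.mk (linInd P F.ne F.mem) (span_top P F.ne F.mem)
  let bQ : Module.Basis ℕ k Q.carrier :=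
    Module.Basis.mk (linInd Q G.ne G.mem) (span_top Q G.ne G.mem)
  let bQ' : Module.Basis ℕ k Q.carrier := bQ.unitsSMul fun i => Units.mk0 (lam i) (hlam0 i)
  let T : P.carrier ≃ₗ[k] Q.carrier := bP.equiv bQ' (Equiv.refl ℕ)
  have hbP : ∀ i, bP i = F.e i := fun i => Module.Basis.mk_apply _ _ i
  have hbQ : ∀ i, bQ i = G.e i := fun i => Module.Basis.mk_apply _ _ i
  have hT : ∀ i, T (F.e i) = lam i • G.e i := by
    intro i
    rw [← hbP i, Module.Basis.equiv_apply, ← hbQ i]
    exact Module.Basis.unitsSMul_apply _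
  have hTx : ∀ j v, T (op (x j) • v) = op (x j) • T v := by
    have : SMulCommClass k Aᵐᵒᵖ P.carrier := IsScalarTower.to_smulCommClass
    have : SMulCommClass k Aᵐᵒᵖ Q.carrier := IsScalarTower.to_smulCommClass
    intro j v
    induction bP.mem_span v using Submodule.span_induction with
    | mem v hv =>
      obtain ⟨i, rfl⟩ := hv
      rw [hbP, F.act, map_smul, hT, hT, smul_comm (op (x j)) (lam i), G.act, hc i, hlam,
        Pi.smul_apply, smul_smul, smul_smul, smul_eq_mul]
      congr 1
      ring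
    | zero => rw [smul_zero, map_zero, smul_zero]
    | add v w _ _ h1 h2 => rw [smul_add, map_add, h1, h2, map_add, smul_add]
    | smul a v _ h1 =>
      rw [← smul_comm a (op (x j)) v, map_smul, h1, map_smul, ← smul_comm a (op (x j))]
  have hTa : ∀ (a : A) v, T (op a • v) = op a • T v := by
    intro a
    have ha : a ∈ Algebra.adjoin k (Set.range x) := by rw [hp.gen]; trivial
    induction ha using Algebra.adjoin_induction with
    | mem y hy => obtain ⟨j, rfl⟩ := hy; exact hTx j
    | algebraMap c => intro v; rw [act_alg, act_alg, map_smul]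
    | add y z _ _ h1 h2 => intro v; rw [op_add, add_smul, add_smul, map_add, h1, h2]
    | mul y z _ _ h1 h2 => intro v; rw [op_mul, mul_smul, mul_smul, h2, h1]
  refine ⟨{ T with map_smul' := fun a v => hTa (unop a) v }, ?_⟩
  intro i v
  change v ∈ P.comp i ↔ T v ∈ Q.comp i
  rw [comp_eq P i (F.ne i) (F.mem i), comp_eq Q i (G.ne i) (G.mem i),
    Submodule.mem_span_singleton, Submodule.mem_span_singleton]
  constructor
  · rintro ⟨a, rfl⟩
    exact ⟨a * lam i, by rw [map_smul, hT, smul_smul]⟩
  · rintro ⟨a, ha⟩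
    refine ⟨a * (lam i)⁻¹, ?_⟩
    apply T.injective
    rw [map_smul, hT, smul_smul, mul_assoc, inv_mul_cancel₀ (hlam0 i), mul_one, ha]

section Construct

variable (pp : ℕ → Fin n → k)

/-- The action of the generator `x_j` on the constructed module. -/
noncomputable def X (j : Fin n) : Module.End k (ℕ →₀ k) :=
  Finsupp.linearCombination k fun i => pp i j • Finsupp.single (i + 1) (1 : k)

theorem X_single (j : Fin n) (i : ℕ) (c : k) :
    X pp j (Finsupp.single i c) = (c * pp i j) • Finsupp.single (i + 1) (1 : k) := by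
  rw [X, Finsupp.linearCombination_single, smul_smul]

theorem X_rel0 (hz : ∀ i, Zero r (pp i) (pp (i + 1))) (s : Fin m) :
    ∑ j, ∑ l, r s j l • (op (X pp j) * op (X pp l)) = 0 := by
  have h : ∑ j, ∑ l, r s j l • (X pp l * X pp j) = 0 := by
    apply Finsupp.lhom_ext
    intro i c
    rw [LinearMap.sum_apply, LinearMap.zero_apply]
    have h1 : ∀ j, (∑ l, r s j l • (X pp l * X pp j)) (Finsupp.single i c) =
        ∑ l, (c * (r s j l * (pp i j * pp (i + 1) l))) • Finsupp.single (i + 2) (1 : k) := by
      intro j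
      rw [LinearMap.sum_apply]
      refine Finset.sum_congr rfl fun l _ => ?_
      rw [LinearMap.smul_apply, Module.End.mul_apply, X_single, map_smul, X_single, smul_smul,
        smul_smul]
      congr 1
      ring
    simp only [h1]
    simp only [← Finset.sum_smul, ← Finset.mul_sum]
    rw [hz i s, mul_zero, zero_smul]
  have h2 : ∑ j, ∑ l, r s j l • (op (X pp j) * op (X pp l)) =
      op (∑ j, ∑ l, r s j l • (X pp l * X pp j)) := by
    rw [Finset.op_sum]
    refine Finset.sum_congr rfl fun j _ => ?_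
    rw [Finset.op_sum]
    refine Finset.sum_congr rfl fun l _ => ?_
    rw [op_smul, op_mul]
  rw [h2, h, op_zero]

theorem X_rel (hz : ∀ i, Zero r (pp i) (pp (i + 1))) (s : Fin m) :
    ∑ j, ∑ l, algebraMap k (Module.End k (ℕ →₀ k))ᵐᵒᵖ (r s j l) *
      (op (X pp j) * op (X pp l)) = 0 := by
  rw [← X_rel0 pp hz s]
  refine Finset.sum_congr rfl fun j _ => Finset.sum_congr rfl fun l _ => ?_
  rw [MulOpposite.algebraMap_apply, ← op_mul, ← op_mul, ← Algebra.commutes, ← Algebra.smul_def,
    op_smul]

theorem exists_hom (hp : IsPres x r) (hz : ∀ i, Zero r (pp i) (pp (i + 1))) :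
    ∃ f : A →ₐ[k] (Module.End k (ℕ →₀ k))ᵐᵒᵖ, ∀ j, f (x j) = op (X pp j) := by
  have h := hp.up ((Module.End k (ℕ →₀ k))ᵐᵒᵖ) (fun j => op (X pp j))
  refine h fun i => ?_
  simp only [Algebra.smul_def]
  exact X_rel pp hz i

/-- The right module structure given by an algebra homomorphism to the opposite of the
endomorphism ring. -/
noncomputable def actHom (f : A →ₐ[k] (Module.End k (ℕ →₀ k))ᵐᵒᵖ) :
    Aᵐᵒᵖ →+* Module.End k (ℕ →₀ k) where
  toFun a := unop (f (unop a))
  map_one' := by simp
  map_mul' a b := by simp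
  map_zero' := by simp
  map_add' a b := by simp

theorem exists_module (hc : IsConnectedGraded 𝒜) (hp : IsPres x r) (hx : ∀ j, x j ∈ 𝒜 1)
    (hz : ∀ i, Zero r (pp i) (pp (i + 1))) (hne : ∀ i, pp i ≠ 0) :
    ∃ (P : PointModule 𝒜) (F : Frame P x), F.p 0 = pp 0 := by
  obtain ⟨f, hf⟩ := exists_hom pp hp hz
  let g := actHom f
  have hg : ∀ a : A, g (op a) = unop (f a) := fun a => rfl
  clear_value g
  let R : Module Aᵐᵒᵖ (ℕ →₀ k) := Module.compHom (ℕ →₀ k) g
  have hsm : ∀ (a : A) (v : ℕ →₀ k), op a • v = (unop (f a)) v := by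
    intro a v
    rw [← hg]
    rfl
  have hT : IsScalarTower k Aᵐᵒᵖ (ℕ →₀ k) := by
    constructor
    intro c a v
    obtain ⟨a, rfl⟩ := op_surjective a
    rw [← op_smul, hsm, hsm, map_smul]
    rfl
  have hX : ∀ j v, op (x j) • v = X pp j v := by
    intro j v
    rw [hsm, hf, unop_op]
  have hone : ∀ i, (Finsupp.single i (1 : k) : ℕ →₀ k) ≠ 0 := fun i => by simp
  let comp : ℕ → Submodule k (ℕ →₀ k) := fun i => Submodule.span k {Finsupp.single i (1 : k)}
  have hV : ∀ i, ∀ a ∈ (Submodule.span k (Set.range x)) ^ i, ∀ j, ∀ v ∈ comp j,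
      op a • v ∈ comp (j + i) := by
    have hV1 : ∀ a ∈ Submodule.span k (Set.range x), ∀ j, ∀ v ∈ comp j,
        op a • v ∈ comp (j + 1) := by
      intro a ha j v hv
      rw [Submodule.mem_span_singleton] at hv
      obtain ⟨c, rfl⟩ := hv
      induction ha using Submodule.span_induction with
      | mem a ha =>
        obtain ⟨l, rfl⟩ := ha
        rw [hX, map_smul, X_single]
        exact Submodule.smul_mem _ _ (Submodule.smul_mem _ _ (Submodule.mem_span_singleton_self _))
      | zero => rw [op_zero, zero_smul]; exact zero_mem _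
      | add a b _ _ h1 h2 => rw [op_add, add_smul]; exact add_mem h1 h2
      | smul d a _ h1 => rw [op_smul, smul_assoc]; exact Submodule.smul_mem _ _ h1
    intro i
    induction i with
    | zero =>
      intro a ha j v hv
      rw [pow_zero] at ha
      obtain ⟨c, rfl⟩ := Submodule.mem_one.mp ha
      have : op (algebraMap k A c) • v = c • v := by
        have h1 : op (algebraMap k A c) = c • (1 : Aᵐᵒᵖ) := by
          rw [Algebra.smul_def, mul_one]; rfl
        rw [h1, smul_assoc, one_smul]
      rw [this]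
      exact Submodule.smul_mem _ _ hv
    | succ i ih =>
      intro a ha j v hv
      rw [pow_succ] at ha
      induction ha using Submodule.mul_induction_on' with
      | mem_mul_mem b hb c hc =>
        rw [op_mul, mul_smul]
        exact hV1 c hc _ _ (ih b hb j v hv)
      | add b _ c _ h1 h2 => rw [op_add, add_smul]; exact add_mem h1 h2
  have hli : LinearIndependent k fun i : ℕ => (Finsupp.single i (1 : k) : ℕ →₀ k) :=
    (Finsupp.basisSingleOne (R := k) (ι := ℕ)).linearIndependent
  let P : PointModule 𝒜 :=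
    { carrier := ℕ →₀ k
      comp := comp
      internal := by
        rw [DirectSum.isInternal_submodule_iff_iSupIndep_and_iSup_eq_top]
        refine ⟨hli.iSupIndep_span_singleton, ?_⟩
        rw [eq_top_iff]
        intro v _
        induction v using Finsupp.induction_linear with
        | zero => exact zero_mem _
        | add v w h1 h2 => exact add_mem (h1 trivial) (h2 trivial)
        | single i c =>
          refine Submodule.mem_iSup_of_mem i ?_
          rw [Submodule.mem_span_singleton]
          exact ⟨c, by simp⟩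
      smul_mem := fun i j a v ha hv => hV i a (le_pow hc hx hp.gen i ha) j v hv
      finrank_comp := fun i => finrank_span_singleton (hone i)
      cyclic := by
        rw [eq_top_iff]
        have hsc : ∀ (S : Submodule Aᵐᵒᵖ (ℕ →₀ k)) (c : k) (v : ℕ →₀ k), v ∈ S → c • v ∈ S := by
          intro S c v hv
          have : c • v = (c • (1 : Aᵐᵒᵖ)) • v := by rw [smul_assoc, one_smul]
          rw [this]
          exact S.smul_mem _ hv
        have hi : ∀ i, (Finsupp.single i (1 : k) : ℕ →₀ k) ∈
            Submodule.span Aᵐᵒᵖ (comp 0 : Set (ℕ →₀ k)) := by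
          intro i
          induction i with
          | zero => exact Submodule.subset_span (Submodule.mem_span_singleton_self _)
          | succ i ih =>
            obtain ⟨j, hj⟩ : ∃ j, pp i j ≠ 0 := by
              by_contra hcon
              push Not at hcon
              exact hne i (funext hcon)
            have h1 : op (x j) • (Finsupp.single i (1 : k) : ℕ →₀ k) =
                pp i j • Finsupp.single (i + 1) (1 : k) := by
              rw [hX, X_single, one_mul]
            have h2 := hsc _ (pp i j)⁻¹ _ (Submodule.smul_mem _ (op (x j)) ih)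
            rw [h1, smul_smul, inv_mul_cancel₀ hj, one_smul] at h2
            exact h2
        intro v _
        induction v using Finsupp.induction_linear with
        | zero => exact zero_mem _
        | add v w h1 h2 => exact add_mem (h1 trivial) (h2 trivial)
        | single i c =>
          have : (Finsupp.single i c : ℕ →₀ k) = c • Finsupp.single i (1 : k) := by simp
          rw [this]
          exact hsc _ _ _ (hi i) }
  refine ⟨P, ⟨fun i => Finsupp.single i (1 : k), pp, hone,
    fun i => Submodule.mem_span_singleton_self _, ?_, hne⟩, rfl⟩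
  intro i j
  change op (x j) • (Finsupp.single i (1 : k) : ℕ →₀ k) = pp i j • Finsupp.single (i + 1) (1 : k)
  rw [hX, X_single, one_mul]

end Construct

/-- Part PMOD. -/
theorem taskPMOD : TaskPMOD.{u} := by
  intro k _ A _ _ 𝒜 n m x r hc hp hx huniq hnext
  classical
  -- the point of a point module
  let fr : ∀ P : PointModule 𝒜, Frame P x := fun P => (exists_frame hp.gen hx P).some
  have hrep : ∀ (v : Fin n → k) (hv : v ≠ 0), ∃ c : k, c ≠ 0 ∧
      (Projectivization.mk k v hv).rep = c • v := by
    intro v hv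
    obtain ⟨a, ha⟩ := Projectivization.exists_smul_eq_mk_rep k v hv
    exact ⟨a, a.ne_zero, ha.symm⟩
  let φ : PointModule 𝒜 → {P : ℙ k (Fin n → k) // ∃ q : Fin n → k, q ≠ 0 ∧ Zero r P.rep q} :=
    fun P => ⟨Projectivization.mk k ((fr P).p 0) ((fr P).pne 0), by
      obtain ⟨c, hc0, hc⟩ := hrep ((fr P).p 0) ((fr P).pne 0)
      refine ⟨(fr P).p 1, (fr P).pne 1, ?_⟩
      rw [hc]
      have := zero_smul' (frame_zero hp.rel (fr P) 0) c 1
      rwa [one_smul] at this⟩
  have hφ : ∀ P Q : PointModule 𝒜, PointModule.Iso P Q ↔ φ P = φ Q := by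
    intro P Q
    rw [Subtype.ext_iff]
    change _ ↔ Projectivization.mk k ((fr P).p 0) ((fr P).pne 0) =
      Projectivization.mk k ((fr Q).p 0) ((fr Q).pne 0)
    rw [Projectivization.mk_eq_mk_iff']
    constructor
    · intro h
      obtain ⟨c, hc0, hc⟩ := iso_p0 h (fr P) (fr Q)
      exact ⟨c, hc.symm⟩
    · rintro ⟨c, hc⟩
      have hc0 : c ≠ 0 := by
        rintro rfl
        rw [zero_smul] at hc
        exact (fr P).pne 0 hc.symm
      refine iso_of_p0 hp huniq (fr P) (fr Q) ⟨c⁻¹, ?_⟩
      rw [← hc, smul_smul, inv_mul_cancel₀ hc0, one_smul]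
  let ψ : PointClasses 𝒜 → {P : ℙ k (Fin n → k) // ∃ q : Fin n → k, q ≠ 0 ∧ Zero r P.rep q} :=
    Quotient.lift φ fun P Q h => (hφ P Q).mp h
  refine Nat.card_congr (Equiv.ofBijective ψ ⟨?_, ?_⟩)
  · intro a b
    refine Quotient.inductionOn₂ a b fun P Q h => ?_
    exact Quotient.sound ((hφ P Q).mpr h)
  · rintro ⟨p, q, hq0, hq⟩
    -- the sequence of points
    let nxt : {v : (Fin n → k) × (Fin n → k) // v.1 ≠ 0 ∧ v.2 ≠ 0 ∧ Zero r v.1 v.2} →
        {v : (Fin n → k) × (Fin n → k) // v.1 ≠ 0 ∧ v.2 ≠ 0 ∧ Zero r v.1 v.2} := fun v =>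
      ⟨(v.1.2, (hnext v.1.1 v.1.2 v.2.1 v.2.2.1 v.2.2.2).choose),
        v.2.2.1, (hnext v.1.1 v.1.2 v.2.1 v.2.2.1 v.2.2.2).choose_spec.1,
        (hnext v.1.1 v.1.2 v.2.1 v.2.2.1 v.2.2.2).choose_spec.2⟩
    let st : {v : (Fin n → k) × (Fin n → k) // v.1 ≠ 0 ∧ v.2 ≠ 0 ∧ Zero r v.1 v.2} :=
      ⟨(p.rep, q), p.rep_nonzero, hq0, hq⟩
    let sq : ℕ → {v : (Fin n → k) × (Fin n → k) // v.1 ≠ 0 ∧ v.2 ≠ 0 ∧ Zero r v.1 v.2} :=
      fun i => nxt^[i] st
    have hsq : ∀ i, (sq (i + 1)).1.1 = (sq i).1.2 := by
      intro i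
      change (nxt^[i + 1] st).1.1 = (nxt^[i] st).1.2
      rw [Function.iterate_succ_apply']
    obtain ⟨P, F, hF⟩ := exists_module (𝒜 := 𝒜) (x := x) (r := r) (fun i => (sq i).1.1) hc hp hx
      (fun i => by rw [hsq]; exact (sq i).2.2.2) (fun i => (sq i).2.1)
    have hF' : F.p 0 = p.rep := hF
    refine ⟨Quotient.mk _ P, ?_⟩
    apply Subtype.ext
    change Projectivization.mk k ((fr P).p 0) ((fr P).pne 0) = p
    obtain ⟨c, hc0, hc⟩ := iso_p0 ((PointModule.setoid 𝒜).refl P) (fr P) F
    conv_rhs => rw [← Projectivization.mk_rep p]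
    rw [Projectivization.mk_eq_mk_iff']
    exact ⟨c, by rw [hc, hF']⟩

end Pool.Agent.W428.PMOD

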